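import Pool.Agent.Y715.T.St
import Pool.Agent.Y715.T.Nr

/-!
# The characters of the intermediate fields and the inverse character
-/

set_option autoImplicit false

namespace Pool.Agent.V11329.TW

open Pool.Agent.Y715.T.St
open scoped Classical

lemma chi_pow {m : ℕ} {π : Fin m → Eis} (lam : ∀ j, MulChar (Eis ⧸ Ideal.span {π j}) ℂ) {n : ℕ}
    (hn : n ≠ 0) (α : Eis) : chi (fun j => lam j ^ n) α = chi lam α ^ n := by
  unfold chi
  rw [← Finset.prod_pow]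
  exact Finset.prod_congr rfl fun j _ => MulChar.pow_apply' _ hn _

/-- the reduction modulo `3 ^ l` -/
def red {k l : ℕ} (h : l ≤ k) : ZMod (3 ^ k) →+* ZMod (3 ^ l) :=
  ZMod.castHom (pow_dvd_pow 3 h) (ZMod (3 ^ l))

lemma red_val {k l : ℕ} (h : l ≤ k) (x : ZMod (3 ^ k)) : (red h x).val = x.val % 3 ^ l := by
  have hne : NeZero (3 ^ k) := ⟨pow_ne_zero _ (by norm_num)⟩
  have e : red h x = ((x.val : ℕ) : ZMod (3 ^ l)) := by
    conv_lhs => rw [← ZMod.natCast_zmod_val x]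
    rw [map_natCast]
  rw [e, ZMod.val_natCast]

lemma neg_val {k : ℕ} (x : ZMod (3 ^ k)) : (-x).val = ((3 ^ k - 1) * x.val) % 3 ^ k := by
  have hne : NeZero (3 ^ k) := ⟨pow_ne_zero _ (by norm_num)⟩
  have e : -x = (((3 ^ k - 1) * x.val : ℕ) : ZMod (3 ^ k)) := by
    have h1 : 1 ≤ 3 ^ k := Nat.one_le_pow _ _ (by norm_num)
    have h2 : ((3 ^ k : ℕ) : ZMod (3 ^ k)) = 0 := ZMod.natCast_self _
    rw [Nat.cast_mul, Nat.cast_sub h1, h2, ZMod.natCast_zmod_val]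
    push_cast
    ring
  conv_lhs => rw [e]
  rw [ZMod.val_natCast]

lemma pow_mod {ζ : ℂ} {N : ℕ} (h : ζ ^ N = 1) (n : ℕ) : ζ ^ (n % N) = ζ ^ n := by
  conv_rhs => rw [← Nat.div_add_mod n N]
  rw [pow_add, pow_mul, h, one_pow, one_mul]

variable {k m : ℕ} {ζ : ℂ} {π : Fin m → Eis} {lam : ∀ j, MulChar (Eis ⧸ Ideal.span {π j}) ℂ}
  {i₀ : QBar} {a : GalK i₀ → ZMod (3 ^ k)}

/-- the intermediate fields -/
lemma corr_level {i : ℕ} (hi : i ≤ k) (hζ : ζ ^ 3 ^ k = 1) (h : Corresponds ζ lam a) :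
    Corresponds (ζ ^ 3 ^ i) (fun j => lam j ^ 3 ^ i)
      (fun σ => red (Nat.sub_le k i) (a σ) : GalK i₀ → ZMod (3 ^ (k - i))) where
  hom := fun σ τ => by
    rw [h.hom, map_add]
  cont := h.cont.comp _
  unram := fun p _ ι hι τ σ hr hs => by
    rw [h.unram p ι hι τ σ hr hs, map_zero]
  ram := fun j p _ ι hι => by
    obtain ⟨τ, σ, h1, h2, h3⟩ := h.ram j p ι hι
    exact ⟨τ, σ, h1, h2, by rw [h3, map_one]⟩
  frob := fun p _ ι ρ hρ hι hd τ σ hr hs => by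
    have h1 := h.frob p ι ρ hρ hι hd τ σ hr hs
    have hN : (ζ ^ 3 ^ i) ^ 3 ^ (k - i) = 1 := by
      rw [← pow_mul, ← pow_add, Nat.add_sub_cancel' hi, hζ]
    rw [chi_pow lam (pow_ne_zero _ (by norm_num)), ← h1, red_val, pow_mod hN, ← pow_mul, ← pow_mul,
      mul_comm]

/-- the inverse character -/
lemma corr_neg (hk : k ≠ 0) (hζ : ζ ^ 3 ^ k = 1) (h : Corresponds ζ lam a) :
    Corresponds ζ (fun j => lam j ^ (3 ^ k - 1)) (fun σ => -a σ : GalK i₀ → ZMod (3 ^ k)) where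
  hom := fun σ τ => by
    rw [h.hom, neg_add]
  cont := h.cont.neg
  unram := fun p _ ι hι τ σ hr hs => by
    rw [h.unram p ι hι τ σ hr hs, neg_zero]
  ram := fun j p _ ι hι => by
    obtain ⟨τ, σ, h1, h2, h3⟩ := h.ram j p ι hι
    refine ⟨τ⁻¹, σ⁻¹, fun x => ?_, fun z hz => ?_, ?_⟩
    · have h4 := h1 (σ⁻¹ x)
      rw [← AlgEquiv.mul_apply, mul_inv_cancel, AlgEquiv.one_apply] at h4
      rw [← h4, ← AlgEquiv.mul_apply, inv_mul_cancel, AlgEquiv.one_apply]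
    · have h4 := h2 z hz
      rw [pow_one] at h4 ⊢
      rw [← Pool.Agent.Y715.T.Nr.nrm τ, map_sub, ← AlgEquiv.mul_apply, mul_inv_cancel,
        AlgEquiv.one_apply, ← norm_neg, neg_sub]
      exact h4
    · have e1 := h.hom 1 1
      rw [mul_one] at e1
      have e2 := h.hom σ⁻¹ σ
      rw [inv_mul_cancel, left_eq_add.1 e1, h3] at e2
      have e3 : a σ⁻¹ = -1 := eq_neg_of_add_eq_zero_left e2.symm
      rw [e3, neg_neg]
  frob := fun p _ ι ρ hρ hι hd τ σ hr hs => by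
    have h1 := h.frob p ι ρ hρ hι hd τ σ hr hs
    have h3 : 3 ^ k - 1 ≠ 0 := by
      have : 1 < 3 ^ k := Nat.one_lt_pow hk (by norm_num)
      omega
    rw [chi_pow lam h3, ← h1, neg_val, pow_mod hζ, ← pow_mul, mul_comm]

end Pool.Agent.V11329.TW
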