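import Pool.Agent.Results.MP_dfae13_nt.ThreePartTwistsProportion
import Pool.Agent.V11329.TW.Cor

/-!
# The members of the family given by powers of the characters
-/

set_option autoImplicit false

namespace Pool.Agent.V11329.TW

open Pool.Agent.Y715.T.St
open Pool.Agent.Results.MP_dfae13_nt.ThreePartTwistsProportion (Datum InFamily IsConnected HasType
  IsSplitPrime)
open scoped Classical

variable {k m : ℕ}

/-- the powers of the characters -/
noncomputable def pw {m : ℕ} (n : ℕ) (x : Datum m) : Datum m := ⟨x.1, fun j => x.2 j ^ n⟩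

lemma omega_cube : omega ^ 3 = 1 := by
  have h : (√3 : ℝ) * √3 = 3 := Real.mul_self_sqrt (by norm_num)
  rw [pow_succ, pow_two]
  apply Complex.ext
  · simp only [omega, Complex.mul_re, Complex.mul_im, Complex.one_re]
    linear_combination (3 / 8) * h
  · simp only [omega, Complex.mul_re, Complex.mul_im, Complex.one_im]
    linear_combination (-√3 / 8) * h

lemma omega_ne : omega ≠ 0 := by
  intro h
  have := omega_cube
  rw [h] at this
  norm_num at this

/-- the type at the lower level -/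
lemma type_level {i : ℕ} (hi : i < k) {x : Datum m} {e : Fin m → ZMod 3} :
    HasType (k - i) (pw (3 ^ i) x) e ↔ HasType k x e := by
  unfold HasType
  refine forall_congr' fun j => forall_congr' fun y => forall_congr' fun c => ?_
  have h1 : ((pw (3 ^ i) x).2 j) (Ideal.Quotient.mk _ y) ^ 3 ^ (k - i - 1) =
      x.2 j (Ideal.Quotient.mk _ y) ^ 3 ^ (k - 1) := by
    show (x.2 j ^ 3 ^ i) (Ideal.Quotient.mk _ y) ^ 3 ^ (k - i - 1) = _
    rw [MulChar.pow_apply' _ (pow_ne_zero _ (by norm_num)), ← pow_mul, ← pow_add]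
    congr 2
    omega
  show (x.1 j ∣ _ → _) ↔ _
  rw [h1]
  rfl

lemma fam_level {i : ℕ} (hi : i < k) {x : Datum m} (h : InFamily Set.univ k x) :
    InFamily Set.univ (k - i) (pw (3 ^ i) x) where
  prime := fun j => by
    obtain ⟨⟨h1, h2, h3, h4⟩, h5⟩ := h.prime j
    exact ⟨⟨h1, h2, h3, (pow_dvd_pow 3 (by omega)).trans h4⟩, h5⟩
  distinct := h.distinct
  order := fun j => by
    show orderOf (x.2 j ^ 3 ^ i) = 3 ^ (k - i)
    rw [orderOf_pow' _ (pow_ne_zero _ (by norm_num)), h.order j,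
      Nat.gcd_eq_right (pow_dvd_pow 3 hi.le), Nat.pow_div hi.le (by norm_num)]
  nine := fun e he => h.nine e ((type_level hi).1 he)

lemma conn_level {i : ℕ} (hi : i < k) {x : Datum m} (h : IsConnected k x) :
    IsConnected (k - i) (pw (3 ^ i) x) := fun e v he hv => h e v ((type_level hi).1 he) hv

/-- the type of the inverse -/
lemma type_neg (hk : 1 ≤ k) {x : Datum m} (hx : ∀ j, orderOf (x.2 j) = 3 ^ k) {e : Fin m → ZMod 3}
    (h : HasType k (pw (3 ^ k - 1) x) e) : HasType k x (fun j => -e j) := by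
  intro j y c hy
  have h1 : (x.2 j ^ (3 ^ k - 1)) (Ideal.Quotient.mk _ y) ^ 3 ^ (k - 1) =
    omega ^ (c * (e j).val) := h j y c hy
  have h3k : 3 ^ k = 3 * 3 ^ (k - 1) := by
    rw [← pow_succ']
    congr 1
    omega
  have hpos : 1 ≤ 3 ^ (k - 1) := Nat.one_le_pow _ _ (by norm_num)
  have hne : 3 ^ k - 1 ≠ 0 := by omega
  rw [MulChar.pow_apply' _ hne] at h1
  obtain ⟨X, hX⟩ : ∃ X, X = x.2 j (Ideal.Quotient.mk _ y) := ⟨_, rfl⟩
  rw [← hX] at h1 ⊢
  have hX0 : X ≠ 0 := by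
    rintro h0
    rw [h0, zero_pow hne, zero_pow (by omega)] at h1
    exact pow_ne_zero _ omega_ne h1.symm
  have hu : IsUnit (Ideal.Quotient.mk (Ideal.span {x.1 j}) y) := by
    by_contra hcon
    exact hX0 (by rw [hX]; exact MulChar.map_nonunit _ hcon)
  have hXk : X ^ 3 ^ k = 1 := by
    rw [hX, ← MulChar.pow_apply' _ (pow_ne_zero _ (by norm_num)), ← hx j, pow_orderOf_eq_one]
    exact MulChar.one_apply hu
  obtain ⟨Y, hY⟩ : ∃ Y, Y = X ^ 3 ^ (k - 1) := ⟨_, rfl⟩
  have hY3 : Y ^ 3 = 1 := by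
    rw [hY, ← pow_mul, mul_comm, ← h3k, hXk]
  have h2 : Y ^ (3 ^ k - 1) = omega ^ (c * (e j).val) := by
    rw [hY, ← h1, pow_right_comm]
  have h4 : Y ^ 2 = omega ^ (c * (e j).val) := by
    rw [← h2]
    have e1 : 3 ^ k - 1 = 3 * (3 ^ (k - 1) - 1) + 2 := by omega
    rw [e1, pow_add, pow_mul, hY3, one_pow, one_mul]
  rw [← hY]
  have h5 : Y = omega ^ (2 * (c * (e j).val)) := by
    have e2 : Y = (Y ^ 2) ^ 2 := by
      rw [← pow_mul]
      show Y = Y ^ (3 + 1)
      rw [pow_succ, hY3, one_mul]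
    conv_lhs => rw [e2]
    rw [h4, ← pow_mul, mul_comm]
  rw [h5]
  have key : ∀ z : ZMod 3, (-z).val % 3 = 2 * z.val % 3 := by decide
  rw [← pow_mod omega_cube, ← pow_mod omega_cube (c * _)]
  congr 1
  have h6 := key (e j)
  rw [Nat.mul_mod, ← Nat.mul_mod]
  calc 2 * (c * (e j).val) % 3 = c * (2 * (e j).val) % 3 := by ring_nf
    _ = c * (2 * (e j).val % 3) % 3 := by rw [Nat.mul_mod, Nat.mul_mod c (_ % 3), Nat.mod_mod]
    _ = c * ((-e j).val % 3) % 3 := by rw [h6]
    _ = c * (-e j).val % 3 := by rw [Nat.mul_mod, Nat.mod_mod, ← Nat.mul_mod]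

/-- cubes of elements that are one modulo three -/
lemma cube_nine {z : Eis} (h : (3 : Eis) ∣ z - 1) : (9 : Eis) ∣ z ^ 3 - 1 := by
  obtain ⟨w, hw⟩ := h
  refine ⟨3 * w ^ 3 + 3 * w ^ 2 + w, ?_⟩
  have e : z = 3 * w + 1 := by rw [← hw]; ring
  rw [e]
  ring

lemma nine_neg {π : Fin m → Eis} (hπ : ∀ j, (3 : Eis) ∣ π j - 1) {e : Fin m → ZMod 3}
    (h : (9 : Eis) ∣ ∏ j, π j ^ (e j).val - 1) : (9 : Eis) ∣ ∏ j, π j ^ (-e j).val - 1 := by
  have key : ∀ z : ZMod 3, z.val + (-z).val = (z.val + (-z).val) / 3 * 3 := by decide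
  obtain ⟨c, hc⟩ : ∃ c : Fin m → ℕ, ∀ j, (e j).val + (-e j).val = c j * 3 := ⟨_, fun j => key (e j)⟩
  have h1 : (9 : Eis) ∣ (∏ j, π j ^ c j) ^ 3 - 1 := by
    apply cube_nine
    have : ∀ s : Finset (Fin m), (3 : Eis) ∣ ∏ j ∈ s, π j ^ c j - 1 := by
      intro s
      induction s using Finset.induction_on with
      | empty => simp
      | insert j s hj ih =>
        rw [Finset.prod_insert hj]
        have h2 : (3 : Eis) ∣ π j ^ c j - 1 := (hπ j).trans (by
          have := sub_dvd_pow_sub_pow (π j) 1 (c j)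
          rwa [one_pow] at this)
        have h3 := dvd_add (Dvd.dvd.mul_right h2 (∏ j ∈ s, π j ^ c j)) ih
        have e1 : (π j ^ c j - 1) * ∏ j ∈ s, π j ^ c j + (∏ j ∈ s, π j ^ c j - 1) =
          π j ^ c j * ∏ j ∈ s, π j ^ c j - 1 := by ring
        rwa [e1] at h3
    exact this Finset.univ
  have h2 : (∏ j, π j ^ c j) ^ 3 = (∏ j, π j ^ (e j).val) * ∏ j, π j ^ (-e j).val := by
    rw [← Finset.prod_mul_distrib, ← Finset.prod_pow]
    refine Finset.prod_congr rfl fun j _ => ?_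
    rw [← pow_add, hc, pow_mul]
  rw [h2] at h1
  have h3 := dvd_sub h1 (Dvd.dvd.mul_right h (∏ j, π j ^ (-e j).val))
  have e2 : (∏ j, π j ^ (e j).val) * ∏ j, π j ^ (-e j).val - 1 -
      (∏ j, π j ^ (e j).val - 1) * ∏ j, π j ^ (-e j).val = ∏ j, π j ^ (-e j).val - 1 := by ring
  rwa [e2] at h3

lemma fam_neg (hk : 1 ≤ k) {x : Datum m} (h : InFamily Set.univ k x) :
    InFamily Set.univ k (pw (3 ^ k - 1) x) where
  prime := h.prime
  distinct := h.distinct
  order := fun j => by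
    show orderOf (x.2 j ^ (3 ^ k - 1)) = 3 ^ k
    have hpos : 1 ≤ 3 ^ k := Nat.one_le_pow _ _ (by norm_num)
    have hc : Nat.Coprime (orderOf (x.2 j)) (3 ^ k - 1) := by
      rw [h.order j]
      have := (Nat.coprime_self_sub_right hpos).2 (Nat.coprime_one_right (3 ^ k))
      exact this
    rw [Nat.Coprime.orderOf_pow hc, h.order j]
  nine := fun e he h9 => h.nine _ (type_neg hk h.order he)
    (nine_neg (fun j => (h.prime j).1.2.1) h9)

lemma conn_neg (hk : 1 ≤ k) {x : Datum m} (hx : ∀ j, orderOf (x.2 j) = 3 ^ k)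
    (h : IsConnected k x) : IsConnected k (pw (3 ^ k - 1) x) := by
  intro e v he hv i j
  have h1 := h (fun j => -e j) (fun j => -v j) (type_neg hk hx he) (fun j => by
    obtain ⟨y, hy⟩ := hv j
    refine ⟨y, ?_⟩
    have e1 : ∀ i, (-e i) * (-v i - -v j) = e i * (v i - v j) := fun i => by ring
    simp only [e1]
    exact hy) i j
  exact neg_injective h1

end Pool.Agent.V11329.TW
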