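import Pool.Agent.V11329.TW.Abs
import Pool.Agent.V11329.TW.Fam

/-!
# The points over the cyclic extensions of degree `3 ^ k`
-/

namespace Pool.Agent.V11329.TW

open Pool.Agent.Y715.T.St
open Pool.Agent.Results.MP_dfae13_nt.ThreePartTwistsProportion (Datum InFamily IsConnected HasType
  IsSplitPrime BSDThree)
open Pool.Agent.Y715.T.Df (pm gh isE pm_im pm_pm pm_id gh_mul)
open Pool.Agent.Y715.T.Ell (im im_im T0 T0_add3)
open scoped Classical

variable {k m : ℕ}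

/-- the points of `A(K)` are killed by three -/
lemma three_points {x : Datum m} (h : BSDThree k x) {ζ : ℂ} (hζ : ζ ^ 3 ^ (k - 1) = omega)
    {i₀ : QBar} (hi : i₀ ^ 2 + i₀ + 1 = 0) {a : GalK i₀ → ZMod (3 ^ k)} (ha : Corresponds ζ x.2 a)
    {f : ZMod (3 ^ k) → Pts QBar} (hf : f ∈ pointsK a) (j : ZMod (3 ^ k)) : 3 • f j = 0 := by
  obtain ⟨⟨T, h5, hT, h6⟩, -⟩ := (h ζ hζ).2 i₀ hi a ha
  have hT3 : 3 • T = 0 := by
    rw [hT]
    have h7 := T0_add3 (isE QBar)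
    exact h7
  rw [h6] at hf
  rcases hf with rfl | rfl | rfl
  · show 3 • (0 : Pts QBar) = 0
    rw [smul_zero]
  · exact hT3
  · show 3 • (-T) = 0
    rw [smul_neg, hT3, neg_zero]

/-- the functions of the descent are in `A(K)` -/
lemma mem_points {i₀ : QBar} (hi : i₀ ^ 2 + i₀ + 1 = 0) {a : GalK i₀ → ZMod (3 ^ k)}
    {f : ZMod (3 ^ k) → Pts QBar} (h1 : ∀ j, f (j - qq k) = im (isE QBar) hi (f j))
    (h2 : ∀ σ j, pm (gh σ) (f (j - a σ)) = f j) : f ∈ pointsK a :=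
  ⟨fun j => (Pool.Agent.Y715.T.Pf.mulW_iff hi _ _).2 (h1 j), fun σ => funext fun j => h2 σ j⟩

/-- one step -/
lemma descent {x : Datum m} (hm : 1 ≤ m) (hk : 2 ≤ k)
    (hfam : ∀ l, 2 ≤ l → ∀ y : Datum m, InFamily Set.univ l y → IsConnected l y → BSDThree l y)
    (hx : InFamily Set.univ k x) (hc : IsConnected k x) {ζ : ℂ} (hζ : ζ ^ 3 ^ (k - 1) = omega)
    {i₀ : QBar} (hi : i₀ ^ 2 + i₀ + 1 = 0) {a : GalK i₀ → ZMod (3 ^ k)} (ha : Corresponds ζ x.2 a)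
    {P : Pts QBar} (hP : ∀ σ, a σ = 0 → pm (gh σ) P = P) (σ : GalK i₀) (hσ : 3 * a σ = 0) :
    pm (gh σ) (27 • P) = 27 • P := by
  have hζk : ζ ^ 3 ^ k = 1 := by
    have e : 3 ^ k = 3 ^ (k - 1) * 3 := by
      rw [← pow_succ]
      congr 1
      omega
    rw [e, pow_mul, hζ, omega_cube]
  obtain ⟨g, hg⟩ : ∃ g, a g = 1 := by
    obtain ⟨p, hp, ι, hι⟩ := Pool.Agent.Y715.T.Df.exists_emb hi (hx.prime ⟨0, hm⟩).1.1
    rw [← Pool.Agent.Y715.T.Pf.emb_eq hi] at hι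
    obtain ⟨τ, σ, h1, h2, h3⟩ := ha.ram ⟨0, hm⟩ p ι hι
    exact ⟨σ, h3⟩
  have hfix : ∀ σ : GalK i₀, gh σ i₀ = i₀ := fun σ =>
    σ.commutes ⟨i₀, IntermediateField.subset_adjoin ℚ {i₀} rfl⟩
  refine step (s := fun σ => pm (gh σ)) (J := im (isE QBar) hi) (a := a) (by omega)
    (fun σ τ y => ?_) (fun y => ?_) (im_im (isE QBar) hi) (fun σ y => ?_) ha.hom g hg ?_ ?_ hP σ hσ
  · show pm (gh (σ * τ)) y = pm (gh σ) (pm (gh τ) y)
    rw [pm_pm, gh_mul]
  · exact pm_id y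
  · exact pm_im (gh σ) hi hi (hfix σ) y
  · intro f h1 h2 j
    exact three_points (hfam k hk x hx hc) hζ hi ha (mem_points hi h1 h2) j
  · intro f h1 h2 j
    exact three_points (hfam k hk _ (fam_neg (by omega) hx) (conn_neg (by omega) hx.order hc)) hζ hi
      (corr_neg (by omega) hζk ha) (mem_points hi h1 h2) j

lemma red_zero {l : ℕ} (h : l ≤ k) (z : ZMod (3 ^ k)) : red h z = 0 ↔ 3 ^ l ∣ z.val := by
  rw [← ZMod.val_eq_zero, red_val, Nat.dvd_iff_mod_eq_zero]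

lemma three_red {i : ℕ} (h : i + 1 ≤ k) (z : ZMod (3 ^ k)) (hz : 3 ^ (k - (i + 1)) ∣ z.val) :
    3 * red (Nat.sub_le k i) z = 0 := by
  have hne : NeZero (3 ^ k) := ⟨pow_ne_zero _ (by norm_num)⟩
  have e : red (Nat.sub_le k i) z = ((z.val : ℕ) : ZMod (3 ^ (k - i))) := by
    conv_lhs => rw [← ZMod.natCast_zmod_val z]
    rw [map_natCast]
  rw [e]
  have e2 : (3 : ZMod (3 ^ (k - i))) * ((z.val : ℕ) : ZMod (3 ^ (k - i))) =
      ((3 * z.val : ℕ) : ZMod (3 ^ (k - i))) := by push_cast; ring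
  rw [e2, ZMod.natCast_eq_zero_iff]
  have e3 : 3 ^ (k - i) = 3 * 3 ^ (k - (i + 1)) := by
    rw [← pow_succ']
    congr 1
    omega
  rw [e3]
  exact Nat.mul_dvd_mul_left 3 hz

/-- **The points over the cyclic extension.** -/
theorem points_descent {x : Datum m} (hm : 1 ≤ m)
    (hfam : ∀ l, 2 ≤ l → ∀ y : Datum m, InFamily Set.univ l y → IsConnected l y → BSDThree l y)
    (hx : InFamily Set.univ k x) (hc : IsConnected k x) {ζ : ℂ} (hζ : ζ ^ 3 ^ (k - 1) = omega)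
    {i₀ : QBar} (hi : i₀ ^ 2 + i₀ + 1 = 0) {a : GalK i₀ → ZMod (3 ^ k)} (ha : Corresponds ζ x.2 a)
    {P : Pts QBar} (hP : ∀ σ, a σ = 0 → pm (gh σ) P = P) (i : ℕ) (hik : i < k) :
    ∀ σ, 3 ^ (k - i) ∣ (a σ).val → pm (gh σ) (27 ^ i • P) = 27 ^ i • P := by
  have hne : NeZero (3 ^ k) := ⟨pow_ne_zero _ (by norm_num)⟩
  induction i with
  | zero =>
    intro σ hσ
    rw [Nat.sub_zero] at hσ
    have h1 : (a σ).val = 0 := Nat.eq_zero_of_dvd_of_lt hσ (a σ).val_lt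
    have e : ((27 ^ 0 : ℕ) • P : Pts QBar) = P := by rw [pow_zero, one_smul]
    exact (congrArg (pm (gh σ)) e).trans ((hP σ ((ZMod.val_eq_zero _).1 h1)).trans e.symm)
  | succ i ih =>
    intro σ hσ
    have ih' := ih (by omega)
    have hζk : ζ ^ 3 ^ k = 1 := by
      have e : 3 ^ k = 3 ^ (k - 1) * 3 := by
        rw [← pow_succ]
        congr 1
        omega
      rw [e, pow_mul, hζ, omega_cube]
    have hζi : (ζ ^ 3 ^ i) ^ 3 ^ (k - i - 1) = omega := by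
      rw [← pow_mul, ← pow_add, ← hζ]
      congr 2
      omega
    have h1 := descent (k := k - i) hm (by omega) hfam (fam_level (by omega) hx)
      (conn_level (by omega) hc) hζi hi (corr_level (by omega) hζk ha) (P := 27 ^ i • P)
      (fun τ hτ => ih' τ ((red_zero _ _).1 hτ)) σ (three_red (by omega) _ hσ)
    have e : ((27 ^ (i + 1) : ℕ) • P : Pts QBar) = 27 • (27 ^ i • P) := by
      rw [pow_succ', mul_smul]
    exact (congrArg (pm (gh σ)) e).trans (h1.trans e.symm)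

/-- **The `L`-functions.** -/
theorem lfun {x : Datum m}
    (hfam : ∀ l, 2 ≤ l → ∀ y : Datum m, InFamily Set.univ l y → IsConnected l y → BSDThree l y)
    (hx : InFamily Set.univ k x) (hc : IsConnected k x) {t : ℕ} (ht : ¬ 3 ^ (k - 1) ∣ t) :
    ∃ F : ℂ → ℂ, IsLFunction x.2 t F ∧ F 1 ≠ 0 := by
  have ht0 : t ≠ 0 := by
    rintro rfl
    exact ht (dvd_zero _)
  obtain ⟨i, t', h1, h2⟩ := Nat.exists_eq_pow_mul_and_not_dvd ht0 3 (by norm_num)
  have hik : i < k - 1 := by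
    by_contra hcon
    exact ht (h2 ▸ (pow_dvd_pow 3 (not_lt.1 hcon)).trans (Dvd.intro _ rfl))
  obtain ⟨ζ, hζ⟩ := IsAlgClosed.exists_pow_nat_eq omega (n := 3 ^ (k - i - 1))
    (pow_pos (by norm_num) _)
  obtain ⟨⟨F, hF1, hF2, -⟩, -⟩ := hfam (k - i) (by omega) _ (fam_level (by omega) hx)
    (conn_level (by omega) hc) ζ hζ
  refine ⟨F t', ⟨(hF1 t' h1).1, fun s hs => ?_⟩, ?_⟩
  · have h3 := (hF1 t' h1).2 s hs
    have e : ∀ α : Eis, chi (pw (3 ^ i) x).2 α ^ t' = chi x.2 α ^ t := by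
      intro α
      have e1 : chi (pw (3 ^ i) x).2 α = chi x.2 α ^ 3 ^ i :=
        chi_pow x.2 (pow_ne_zero _ (by norm_num)) α
      rw [e1, ← pow_mul, ← h2]
    simp only [e] at h3
    exact h3
  · obtain ⟨u, hu, hv⟩ := hF2 t' h1
    rw [hv]
    have hz1 : 1 - ζ ≠ 0 := by
      intro h0
      have h4 : ζ = 1 := (sub_eq_zero.1 h0).symm
      rw [h4, one_pow] at hζ
      have h5 := congrArg Complex.im hζ
      simp only [omega, Complex.one_im] at h5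
      have h6 : (0 : ℝ) < √3 := Real.sqrt_pos.2 (by norm_num)
      linarith
    have hΩ : (Omega : ℂ) ≠ 0 := by
      have h7 : Pool.Agent.Y715.T.Om.Om = Omega := rfl
      have h8 := Pool.Agent.Y715.T.Om.Om_pos
      rw [h7] at h8
      exact_mod_cast h8.ne'
    exact mul_ne_zero (mul_ne_zero hΩ (pow_ne_zero _ hz1)) hu.1

end Pool.Agent.V11329.TW
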