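import Pool.Agent.V11329.JS.Fin
import Pool.Agent.V11329.TW.Des

/-!
# The Selmer group of `V₃ A`
-/


namespace Pool.Agent.V11329.TW

open Pool.Agent.Y715.T.St
open Pool.Agent.Results.MP_dfae13_nt.ThreePartTwistsProportion (Datum InFamily IsConnected BSDThree)
open Pool.Agent.Y715.T.Df (pm gh isE tw)
open Pool.Agent.V11329.JS (V)
open scoped Classical

variable {k m : ℕ}

/-- continuous functions with torsion values have bounded order -/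
lemma bounded {i₀ : QBar} (f : GalK i₀ → ZMod (3 ^ k) → Pts QBar) (hf : IsLocallyConstant f)
    (h : ∀ σ, ∃ n : ℕ, (3 ^ n : ℕ) • f σ = 0) : ∃ K : ℕ, ∀ σ, (3 ^ K : ℕ) • f σ = 0 := by
  have hgal : IsGalois (IntermediateField.adjoin ℚ {i₀}) QBar := Pool.Agent.Y715.T.Gi.galKK i₀
  have hfin : (Set.range f).Finite := hf.range_finite
  choose e he using h
  have hex : ∀ y ∈ Set.range f, ∃ n : ℕ, (3 ^ n : ℕ) • y = 0 := by
    rintro y ⟨σ, rfl⟩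
    exact ⟨e σ, he σ⟩
  choose! n hn using hex
  obtain ⟨K, hK⟩ := (hfin.image n).bddAbove
  refine ⟨K, fun σ => ?_⟩
  have h1 := hn _ (Set.mem_range_self σ)
  have h2 : n (f σ) ≤ K := hK ⟨_, Set.mem_range_self σ, rfl⟩
  rw [← Nat.sub_add_cancel h2, pow_add, mul_smul, h1, smul_zero]

/-- **The Selmer group is zero.** -/
theorem sel_cob {x : Datum m} (h : BSDThree k x) {ζ : ℂ} (hζ : ζ ^ 3 ^ (k - 1) = omega)
    {i₀ : QBar} (hi : i₀ ^ 2 + i₀ + 1 = 0) {a : GalK i₀ → ZMod (3 ^ k)} (ha : Corresponds ζ x.2 a)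
    (c : GalK i₀ → V 3 (ZMod (3 ^ k) → Pts QBar))
    (hc : ∀ n, IsCocycle a (fun σ => (c σ).seq n) ∧ LocallyTrivial a (fun σ => (c σ).seq n)) :
    ∃ y : V 3 (ZMod (3 ^ k) → Pts QBar), (∀ n, InA k i₀ (y.seq n)) ∧
      ∀ σ n, (c σ).seq n = twist (homK σ) (a σ) (y.seq n) - y.seq n := by
  have h7 := ((h ζ hζ).2 i₀ hi a ha).2
  have hinA : ∀ P : ZMod (3 ^ k) → Pts QBar, InA k i₀ P ↔ P ∈ Pool.Agent.Y715.T.Df.MM hi k :=
    Pool.Agent.Y715.T.Pf.inA_iff hi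
  have hK : ∀ n, ∃ K : ℕ, ∀ σ, (3 ^ K : ℕ) • (c σ).seq n = 0 := fun n =>
    bounded (fun σ => (c σ).seq n) (hc n).1.1 (fun σ => ((c σ).2 n).2)
  have hcb : ∀ n, ∃ P : ZMod (3 ^ k) → Pts QBar, P ∈ Pool.Agent.Y715.T.Df.MM hi k ∧ ∀ σ,
      (c σ).seq n = twist (homK σ) (a σ) P - P := by
    intro n
    obtain ⟨K, hK⟩ := hK n
    obtain ⟨P, hP1, hP2⟩ := h7 (fun σ => (c σ).seq n) K (hc n).1 (hc n).2
      ⟨0, (hinA _).2 (zero_mem _), fun σ => by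
        show (3 ^ K : ℕ) • (c σ).seq n = twist (homK σ) (a σ) 0 - 0
        have e : twist (homK σ) (a σ) (0 : ZMod (3 ^ k) → Pts QBar) = 0 :=
          map_zero (tw (gh σ) (a σ))
        rw [hK σ, e, sub_zero]⟩
    exact ⟨P, (hinA P).1 hP1, hP2⟩
  obtain ⟨y, hy1, hy2⟩ := Pool.Agent.V11329.JS.cob_of (p := 3) (fun σ => tw (gh σ) (a σ))
    (Pool.Agent.Y715.T.Df.MM hi k) c hcb (fun P hP hfix => by
      funext j
      exact three_points h hζ hi ha (f := P) ⟨(hinA P).2 hP, hfix⟩ j) (hK 0)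
  exact ⟨y, fun n => (hinA _).2 (hy1 n), hy2⟩

/-- no invariants -/
theorem no_inv {x : Datum m} (h : BSDThree k x) {ζ : ℂ} (hζ : ζ ^ 3 ^ (k - 1) = omega)
    {i₀ : QBar} (hi : i₀ ^ 2 + i₀ + 1 = 0) {a : GalK i₀ → ZMod (3 ^ k)} (ha : Corresponds ζ x.2 a)
    (y : V 3 (ZMod (3 ^ k) → Pts QBar)) (hy : ∀ n, y.seq n ∈ pointsK a) (n : ℕ) : y.seq n = 0 := by
  have h1 : 3 • y.seq (n + 1) = y.seq n := (y.2 n).1
  rw [← h1]
  funext j
  exact three_points h hζ hi ha (hy (n + 1)) j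

end Pool.Agent.V11329.TW
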