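import Mathlib

/-!
# Points over cyclic extensions of degree `3 ^ k`: the abstract descent

`G` acts on the abelian group `M`, `J` is an endomorphism with `J² + J + 1 = 0` that commutes with the
action, and `a` is a homomorphism from `G` onto `ℤ / 3 ^ k`.
-/

set_option autoImplicit false

namespace Pool.Agent.V11329.TW

variable {k : ℕ}

/-- `3 ^ (k - 1)` modulo `3 ^ k` -/
def qq (k : ℕ) : ZMod (3 ^ k) := ((3 ^ (k - 1) : ℕ) : ZMod (3 ^ k))

lemma three_cases (hk : 1 ≤ k) {z : ZMod (3 ^ k)} (h : 3 * z = 0) :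
    z = 0 ∨ z = qq k ∨ z = qq k + qq k := by
  have hne : NeZero (3 ^ k) := ⟨pow_ne_zero _ (by norm_num)⟩
  have h3 : 3 ^ k = 3 * 3 ^ (k - 1) := by
    rw [← pow_succ']
    congr 1
    omega
  have h1 : ((3 * z.val : ℕ) : ZMod (3 ^ k)) = 0 := by
    rw [Nat.cast_mul, ZMod.natCast_zmod_val]
    exact_mod_cast h
  rw [ZMod.natCast_eq_zero_iff] at h1
  have hlt := z.val_lt
  have hc' : ∃ c, z.val = 3 ^ (k - 1) * c := by
    obtain ⟨v, hv⟩ : ∃ v, v = z.val := ⟨_, rfl⟩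
    rw [← hv] at h1 ⊢
    rw [h3] at h1
    exact Nat.dvd_of_mul_dvd_mul_left (by norm_num) h1
  obtain ⟨c, hc⟩ := hc'
  rw [hc] at hlt
  have hlt' : 3 ^ (k - 1) * c < 3 ^ (k - 1) * 3 := by
    rw [mul_comm _ 3, ← h3]
    exact hlt
  have hc3 : c < 3 := lt_of_mul_lt_mul_left hlt' (Nat.zero_le _)
  have hz : z = ((3 ^ (k - 1) * c : ℕ) : ZMod (3 ^ k)) := by
    rw [← hc, ZMod.natCast_zmod_val]
  rw [hz]
  unfold qq
  interval_cases c
  · left
    rw [mul_zero, Nat.cast_zero]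
  · right; left
    rw [mul_one]
  · right; right
    rw [mul_two, Nat.cast_add]

lemma three_qq (hk : 1 ≤ k) : qq k + qq k + qq k = 0 := by
  unfold qq
  rw [← Nat.cast_add, ← Nat.cast_add, ZMod.natCast_eq_zero_iff]
  have h3 : 3 ^ k = 3 ^ (k - 1) * 3 := by
    rw [← pow_succ]
    congr 1
    omega
  rw [h3]
  exact ⟨1, by ring⟩

variable {M G : Type} [AddCommGroup M] [Group G] {s : G → M →+ M} {J : M →+ M}
  {a : G → ZMod (3 ^ k)}

/-- **One step of the descent.** -/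
theorem step (hk : 1 ≤ k) (hs : ∀ σ τ x, s (σ * τ) x = s σ (s τ x)) (hs1 : ∀ x, s 1 x = x)
    (hJ : ∀ x, J (J x) = -x - J x) (hsJ : ∀ σ x, s σ (J x) = J (s σ x))
    (ha : ∀ σ τ, a (σ * τ) = a σ + a τ) (g : G) (hg : a g = 1)
    (hA : ∀ f : ZMod (3 ^ k) → M, (∀ j, f (j - qq k) = J (f j)) →
      (∀ σ j, s σ (f (j - a σ)) = f j) → ∀ j, 3 • f j = 0)
    (hB : ∀ f : ZMod (3 ^ k) → M, (∀ j, f (j - qq k) = J (f j)) →
      (∀ σ j, s σ (f (j - -a σ)) = f j) → ∀ j, 3 • f j = 0)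
    {P : M} (hP : ∀ σ, a σ = 0 → s σ P = P) (σ : G) (hσ : 3 * a σ = 0) :
    s σ (27 • P) = 27 • P := by
  have hne : NeZero (3 ^ k) := ⟨pow_ne_zero _ (by norm_num)⟩
  have a1 : a 1 = 0 := by
    have h := ha 1 1
    rw [mul_one] at h
    exact left_eq_add.1 h
  have apow : ∀ n : ℕ, a (g ^ n) = n := by
    intro n
    induction n with
    | zero => rw [pow_zero, a1, Nat.cast_zero]
    | succ n ih => rw [pow_succ, ha, ih, hg, Nat.cast_succ]
  have aval : ∀ j : ZMod (3 ^ k), a (g ^ j.val) = j := by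
    intro j
    rw [apow, ZMod.natCast_zmod_val]
  have ainv : ∀ τ, a τ⁻¹ = -a τ := by
    intro τ
    have h := ha τ⁻¹ τ
    rw [inv_mul_cancel, a1] at h
    exact eq_neg_of_add_eq_zero_left h.symm
  -- the action on the fixed points of the kernel
  have eq_of : ∀ x : M, (∀ τ, a τ = 0 → s τ x = x) → ∀ τ τ', a τ = a τ' → s τ x = s τ' x := by
    intro x hx τ τ' h
    have h1 := hx (τ'⁻¹ * τ) (by rw [ha, ainv, h, neg_add_cancel])
    have h2 := congrArg (s τ') h1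
    rw [← hs, mul_inv_cancel_left] at h2
    exact h2
  have stab : ∀ x : M, (∀ τ, a τ = 0 → s τ x = x) → ∀ ρ τ, a τ = 0 → s τ (s ρ x) = s ρ x := by
    intro x hx ρ τ h
    rw [← hs]
    exact eq_of x hx _ _ (by rw [ha, h, zero_add])
  obtain ⟨h, hh⟩ : ∃ h : G, a h = qq k := ⟨g ^ (3 ^ (k - 1)), by rw [apow]; rfl⟩
  have hPh := stab P hP h
  have hhh : s h (s h (s h P)) = P := by
    rw [← hs, ← hs]
    have h1 := eq_of P hP (h * h * h) 1 (by rw [ha, ha, a1, hh, three_qq hk])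
    rw [h1, hs1]
  -- the trace
  have hT : ∀ σ, 3 * a σ = 0 → s σ (P + s h P + s h (s h P)) = P + s h P + s h (s h P) := by
    intro σ hσ
    rw [map_add, map_add]
    rcases three_cases hk hσ with h0 | h0 | h0
    · rw [hP σ h0, hPh σ h0, stab _ hPh h σ h0]
    · have e1 : s σ P = s h P := eq_of P hP _ _ (by rw [h0, hh])
      have e2 : s σ (s h P) = s h (s h P) := eq_of _ hPh _ _ (by rw [h0, hh])
      have e3 : s σ (s h (s h P)) = P := by
        rw [eq_of _ (stab _ hPh h) σ h (by rw [h0, hh]), hhh]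
      rw [e1, e2, e3]
      abel
    · have e0 : a σ = a (h * h) := by rw [h0, ha, hh]
      have e1 : s σ P = s h (s h P) := by rw [eq_of P hP _ _ e0, hs]
      have e2 : s σ (s h P) = P := by rw [eq_of _ hPh _ _ e0, hs, hhh]
      have e3 : s σ (s h (s h P)) = s h P := by
        rw [eq_of _ (stab _ hPh h) _ _ e0, hs, hhh]
      rw [e1, e2, e3]
      abel
  -- the other part
  obtain ⟨Q, hQd⟩ : ∃ Q, Q = P - s h P := ⟨_, rfl⟩
  have hQ : ∀ τ, a τ = 0 → s τ Q = Q := by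
    intro τ hτ
    rw [hQd, map_sub, hP τ hτ, hPh τ hτ]
  have hQ3 : s h (s h Q) = -Q - s h Q := by
    rw [hQd]
    simp only [map_sub, hhh]
    abel
  have hJQ : ∀ (x : M), (∀ τ, a τ = 0 → s τ x = x) → ∀ τ, a τ = 0 → s τ (J x) = J x := by
    intro x hx τ hτ
    rw [hsJ, hx τ hτ]
  have hJ3 : ∀ x, J (J (J x)) = x := by
    intro x
    rw [hJ (J x), hJ x]
    abel
  have h1 : 3 • (s h Q - J (J Q)) = 0 := by
    obtain ⟨Q1, hQ1d⟩ : ∃ Q1, Q1 = s h Q - J (J Q) := ⟨_, rfl⟩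
    rw [← hQ1d]
    have hQ1 : ∀ τ, a τ = 0 → s τ Q1 = Q1 := by
      intro τ hτ
      rw [hQ1d, map_sub, stab Q hQ h τ hτ, hJQ _ (hJQ _ hQ) τ hτ]
    have hhQ1 : s h Q1 = J Q1 := by
      rw [hQ1d]
      simp only [map_sub, map_neg, hsJ, hQ3, hJ]
      abel
    have h2 := hB (fun j => s (g ^ (-j).val) Q1) (fun j => by
      show s (g ^ (-(j - qq k)).val) Q1 = J (s (g ^ (-j).val) Q1)
      rw [← hsJ, ← hhQ1, ← hs]
      exact eq_of Q1 hQ1 _ _ (by rw [ha, aval, aval, hh]; ring)) (fun τ j => by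
      show s τ (s (g ^ (-(j - -a τ)).val) Q1) = s (g ^ (-j).val) Q1
      rw [← hs]
      exact eq_of Q1 hQ1 _ _ (by rw [ha, aval, aval]; ring)) 0
    have e : s (g ^ (-(0 : ZMod (3 ^ k))).val) Q1 = Q1 := by
      rw [neg_zero, ZMod.val_zero, pow_zero, hs1]
    have h3 : 3 • s (g ^ (-(0 : ZMod (3 ^ k))).val) Q1 = 0 := h2
    rwa [e] at h3
  have h2 : 3 • (s h Q - J Q) = 0 := by
    obtain ⟨Q2, hQ2d⟩ : ∃ Q2, Q2 = s h Q - J Q := ⟨_, rfl⟩
    rw [← hQ2d]
    have hQ2 : ∀ τ, a τ = 0 → s τ Q2 = Q2 := by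
      intro τ hτ
      rw [hQ2d, map_sub, stab Q hQ h τ hτ, hJQ _ hQ τ hτ]
    have hhQ2 : s h Q2 = J (J Q2) := by
      rw [hQ2d]
      simp only [map_sub, map_neg, hsJ, hQ3, hJ]
      abel
    have h3 := hA (fun j => s (g ^ j.val) Q2) (fun j => by
      show s (g ^ (j - qq k).val) Q2 = J (s (g ^ j.val) Q2)
      have e : s (g ^ j.val) Q2 = J (J (s (g ^ (j - qq k).val) Q2)) := by
        rw [← hsJ, ← hsJ, ← hhQ2, ← hs]
        exact eq_of Q2 hQ2 _ _ (by rw [ha, aval, aval, hh]; ring)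
      rw [e, hJ3]) (fun τ j => by
      show s τ (s (g ^ (j - a τ).val) Q2) = s (g ^ j.val) Q2
      rw [← hs]
      exact eq_of Q2 hQ2 _ _ (by rw [ha, aval, aval]; ring)) 0
    have e : s (g ^ (0 : ZMod (3 ^ k)).val) Q2 = Q2 := by
      rw [ZMod.val_zero, pow_zero, hs1]
    have h4 : 3 • s (g ^ (0 : ZMod (3 ^ k)).val) Q2 = 0 := h3
    rwa [e] at h4
  -- `9 Q = 0`
  have h9 : 9 • Q = 0 := by
    have e1 : 3 • (J (J Q) - J Q) = 0 := by
      have : J (J Q) - J Q = (s h Q - J Q) - (s h Q - J (J Q)) := by abel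
      rw [this, smul_sub, h2, h1, sub_zero]
    have e2 := congrArg (fun x => J (J x) - J x) e1
    simp only [map_zero, sub_zero, map_nsmul, map_sub, hJ3] at e2
    rw [hJ Q] at e2
    have e3 : (3 • (J Q - Q) - 3 • (Q - (-Q - J Q)) : M) = -(9 • Q) := by abel
    rw [e3] at e2
    exact neg_eq_zero.1 e2
  have h9' : 9 • s h Q = 0 := by rw [← map_nsmul, h9, map_zero]
  have e27 : 27 • P = 9 • (P + s h P + s h (s h P)) := by
    have e1 : P - s h (s h P) = Q + s h Q := by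
      rw [hQd, map_sub]
      abel
    have e2 : 9 • (P - s h P) + 9 • (P - s h (s h P)) = 0 := by
      rw [← hQd, e1, smul_add, h9, h9', add_zero, add_zero]
    have e3 : 27 • P = 9 • (P + s h P + s h (s h P)) +
        (9 • (P - s h P) + 9 • (P - s h (s h P))) := by abel
    rw [e3, e2, add_zero]
  rw [e27, map_nsmul, hT σ hσ]

end Pool.Agent.V11329.TW
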