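import Pool.Agent.Results.MP_dfae13_nt.ThreePartTwistsProportion

/-!
# The proportion of the members with a property that holds for the connected ones
-/

set_option autoImplicit false

open scoped Classical
open Filter Topology Pool.Agent.Y715.T.St

namespace Pool.Agent.V11329.TW

open Pool.Agent.Results.MP_dfae13_nt.ThreePartTwistsProportion (Datum InFamily IsConnected count
  IsDense)

theorem law (k m : ℕ) (hk : 2 ≤ k) (hm : 1 ≤ m) (Q : Datum m → Prop)
    (hQ : ∀ x : Datum m, InFamily Set.univ k x → IsConnected k x → Q x) :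
    (∀ x : Datum m, InFamily Set.univ k x → IsConnected k x → Q x) ∧
    IsDense k Set.univ ∧
    ∀ S : Set Eis, IsDense k S →
      (∃ (c C : ℝ) (X₀ : ℕ), 0 < c ∧ 0 < C ∧ ∀ X : ℕ, X₀ ≤ X →
        c * (X * Real.log (Real.log X) ^ (m - 1) / Real.log X) ≤
          (count (m := m) (InFamily S k) X : ℝ) ∧
        (count (m := m) (InFamily S k) X : ℝ) ≤
          C * (X * Real.log (Real.log X) ^ (m - 1) / Real.log X)) ∧
      Tendsto (fun X : ℕ => (count (m := m) (fun x => InFamily S k x ∧ IsConnected k x) X : ℝ) /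
        (count (m := m) (InFamily S k) X : ℝ)) atTop
        (𝓝 (∏ i ∈ Finset.range (m / 2), (1 - 1 / 3 ^ (2 * i + 1) : ℝ))) ∧
      ∀ ε : ℝ, 0 < ε → ∃ X₀ : ℕ, ∀ X : ℕ, X₀ ≤ X →
        (∏ i ∈ Finset.range (m / 2), (1 - 1 / 3 ^ (2 * i + 1) : ℝ) - ε) *
          (count (m := m) (InFamily S k) X : ℝ) ≤
          (count (m := m) (fun x => InFamily S k x ∧ Q x) X : ℝ) := by
  obtain ⟨-, a2, a3⟩ :=
    Pool.Agent.Results.MP_dfae13_nt.ThreePartTwistsProportion.result k m hk hm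
  refine ⟨hQ, a2, fun S hS => ?_⟩
  obtain ⟨b1, b2, -⟩ := a3 S hS
  refine ⟨b1, b2, fun ε hε => ?_⟩
  obtain ⟨X₀, hX₀⟩ := (Metric.tendsto_atTop.1 b2) ε hε
  refine ⟨X₀, fun X hX => ?_⟩
  have h1 := hX₀ X hX
  rw [Real.dist_eq, abs_lt] at h1
  rcases Nat.eq_zero_or_pos (count (m := m) (InFamily S k) X) with h0 | hpos
  · rw [h0, Nat.cast_zero, mul_zero]
    exact Nat.cast_nonneg _
  have hposR : (0 : ℝ) < (count (m := m) (InFamily S k) X : ℝ) := by exact_mod_cast hpos
  have h2 : (∏ i ∈ Finset.range (m / 2), (1 - 1 / 3 ^ (2 * i + 1) : ℝ) - ε) *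
      (count (m := m) (InFamily S k) X : ℝ) ≤
      (count (m := m) (fun x => InFamily S k x ∧ IsConnected k x) X : ℝ) := by
    rw [← le_div_iff₀ hposR]
    linarith [h1.1]
  refine h2.trans ?_
  have hfin0 : Finite {x : Datum m // InFamily S k x ∧ ∏ j, nrm (x.1 j) ≤ X} :=
    Nat.finite_of_card_ne_zero hpos.ne'
  have hfin : Finite {x : Datum m // (InFamily S k x ∧ Q x) ∧ ∏ j, nrm (x.1 j) ≤ X} := by
    refine Finite.of_injective (fun x => (⟨x.1, x.2.1.1, x.2.2⟩ :
      {x : Datum m // InFamily S k x ∧ ∏ j, nrm (x.1 j) ≤ X})) ?_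
    intro x y h
    exact Subtype.ext (Subtype.mk.inj h)
  have h8 : count (m := m) (fun x => InFamily S k x ∧ IsConnected k x) X ≤
      count (m := m) (fun x => InFamily S k x ∧ Q x) X := by
    unfold count
    refine Nat.card_le_card_of_injective (fun x => (⟨x.1, ⟨x.2.1.1, hQ x.1
      ⟨fun j => ⟨(x.2.1.1.prime j).1, Set.mem_univ _⟩, x.2.1.1.distinct, x.2.1.1.order,
        x.2.1.1.nine⟩ x.2.1.2⟩, x.2.2⟩ :
      {x : Datum m // (InFamily S k x ∧ Q x) ∧ ∏ j, nrm (x.1 j) ≤ X})) ?_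
    intro x y h
    exact Subtype.ext (Subtype.mk.inj h)
  exact_mod_cast h8

end Pool.Agent.V11329.TW
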